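import Mathlib
import Pool.Agent.Work.MP_6591ba_co.Defs
import Pool.Agent.Work.MP_6591ba_co.Params

/-!
# Cayley local spectral expanders over `𝔽₂ⁿ` of polynomial degree

For every `lam > 0` there are, for infinitely many `n`, Cayley `lam`-local spectral expanders over
`𝔽₂ⁿ` whose degree is at most a fixed power of `n`.
-/

set_option autoImplicit false

namespace Pool.Agent.Results.MP_6591ba_co.PolyDegree

open Pool.Agent.Work.MP_6591ba_co

/-- For every `lam > 0` there is a constant `c` such that for arbitrarily large `n` there is a Cayley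
complex over `𝔽₂ⁿ` which is a `lam`-local spectral expander of degree at most `n ^ c`. Moreover no
link has an isolated vertex. -/
theorem result (lam : ℝ) (hlam : 0 < lam) :
    ∃ c : ℕ, ∀ n₀ : ℕ, ∃ n ≥ n₀, ∃ (S : Set (Fin n → ZMod 2)) (X : TwoComplex (Fin n → ZMod 2)),
      IsCayleyComplex X S ∧ IsLocalSpectralExpander X lam ∧
      (∀ u v, ∃ w, (X.link u).Adj v w) ∧ S.ncard ≤ n ^ c := by
  obtain ⟨m, hm⟩ := exists_nat_ge (2 / lam)
  have hf : 2 ≤ m + 2 := by omega
  obtain ⟨c, hc⟩ := main_fixed (m + 2) hf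
  refine ⟨c, fun n₀ => ?_⟩
  obtain ⟨n, hn, S, X, h1, h2, h3, h4⟩ := hc n₀
  refine ⟨n, hn, S, X, h1, ⟨h2.1, fun u => (h2.2 u).trans ?_⟩, h3, h4⟩
  have h5 : (0 : ℝ) < ((m + 2 : ℕ) : ℝ) := by positivity
  rw [div_le_iff₀ h5]
  rw [div_le_iff₀ hlam] at hm
  push_cast
  nlinarith

end Pool.Agent.Results.MP_6591ba_co.PolyDegree
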